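import Mathlib

set_option autoImplicit false

namespace Pool.Agent.Results.MP_8cf263_co.NonLatticeCentre

/-- The integer vector `u` is primitive: only units divide all its coordinates. -/
def Prim {n : ℕ} (u : Fin n → ℤ) : Prop :=
  ∀ d : ℤ, (∀ i, d ∣ u i) → IsUnit d

/-- `K` is a convex lattice set: it contains every integer point of its real convex hull. -/
def ConvLat {n : ℕ} (K : Finset (Fin n → ℤ)) : Prop :=
  ∀ x : Fin n → ℤ, (fun i => (x i : ℝ)) ∈
      convexHull ℝ ((fun y : Fin n → ℤ => fun i => (y i : ℝ)) '' (K : Set (Fin n → ℤ))) →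
      x ∈ K

variable {n : ℕ}

lemma seg_mem {K : Finset (Fin n → ℤ)} (hK : ConvLat K) {x y z : Fin n → ℤ}
    (hx : x ∈ K) (hy : y ∈ K) (t : ℝ) (h0 : 0 ≤ t) (h1 : t ≤ 1)
    (hz : ∀ i, (z i : ℝ) = (1 - t) * x i + t * y i) : z ∈ K := by
  apply hK
  have hx' : (fun i => (x i : ℝ)) ∈ convexHull ℝ
      ((fun y : Fin n → ℤ => fun i => (y i : ℝ)) '' (K : Set (Fin n → ℤ))) :=
    subset_convexHull ℝ _ ⟨x, hx, rfl⟩
  have hy' : (fun i => (y i : ℝ)) ∈ convexHull ℝ
      ((fun y : Fin n → ℤ => fun i => (y i : ℝ)) '' (K : Set (Fin n → ℤ))) :=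
    subset_convexHull ℝ _ ⟨y, hy, rfl⟩
  have hc := (convex_convexHull ℝ
      ((fun y : Fin n → ℤ => fun i => (y i : ℝ)) '' (K : Set (Fin n → ℤ)))) hx' hy'
      (sub_nonneg.mpr h1) h0 (by ring)
  convert hc using 1
  funext i
  simp [hz i]

lemma prim_ne_zero {u : Fin n → ℤ} (hu : Prim u) : u ≠ 0 := by
  rintro rfl
  have := hu 0 (by simp)
  simp at this

lemma prim_neg {u : Fin n → ℤ} (hu : Prim u) : Prim (-u) := by
  intro d hd
  apply hu d
  intro i
  have := hd i
  simpa using this

lemma prim_bezout {u : Fin n → ℤ} (hu : Prim u) : ∃ b : Fin n → ℤ, ∑ i, b i * u i = 1 := by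
  have h1 : Ideal.span (Set.range u) = ⊤ := by
    obtain ⟨g, hg⟩ := (IsPrincipalIdealRing.principal (Ideal.span (Set.range u))).principal
    have hgu : IsUnit g := by
      apply hu g
      intro i
      have hi : u i ∈ Ideal.span (Set.range u) := Ideal.subset_span ⟨i, rfl⟩
      rw [hg] at hi
      exact Ideal.mem_span_singleton.mp hi
    rw [hg]
    exact Ideal.span_singleton_eq_top.mpr hgu
  have h2 : (1 : ℤ) ∈ Submodule.span ℤ (Set.range u) := by
    have : (1 : ℤ) ∈ Ideal.span (Set.range u) := by rw [h1]; trivial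
    exact this
  obtain ⟨b, hb⟩ := (Submodule.mem_span_range_iff_exists_fun ℤ).mp h2
  exact ⟨b, by simpa [smul_eq_mul] using hb⟩

lemma collinear_of_prim {u : Fin n → ℤ} (hu : Prim u) (z : Fin n → ℤ)
    (h : (∑ i, u i * u i) • z = (∑ i, u i * z i) • u) : ∃ k : ℤ, z = k • u := by
  obtain ⟨b, hb⟩ := prim_bezout hu
  set q := ∑ i, u i * u i with hq
  set p := ∑ i, u i * z i with hp
  have hqpos : 0 < q := by
    have hne := prim_ne_zero hu
    obtain ⟨j, hj⟩ := Function.ne_iff.mp hne
    have hj' : u j ≠ 0 := by simpa using hj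
    apply Finset.sum_pos' (fun i _ => mul_self_nonneg (u i))
    exact ⟨j, Finset.mem_univ j, mul_self_pos.mpr hj'⟩
  have hcoord : ∀ i, q * z i = p * u i := by
    intro i
    have := congrFun h i
    simpa [smul_eq_mul] using this
  refine ⟨∑ i, b i * z i, ?_⟩
  have hpq : p = q * ∑ i, b i * z i := by
    calc p = p * ∑ i, b i * u i := by rw [hb, mul_one]
      _ = ∑ i, b i * (p * u i) := by rw [Finset.mul_sum]; apply Finset.sum_congr rfl; intros; ring
      _ = ∑ i, b i * (q * z i) := by apply Finset.sum_congr rfl; intro i _; rw [hcoord]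
      _ = q * ∑ i, b i * z i := by rw [Finset.mul_sum]; apply Finset.sum_congr rfl; intros; ring
  funext i
  have h3 := hcoord i
  rw [hpq] at h3
  have h4 : q * z i = q * ((∑ i, b i * z i) * u i) := by rw [h3]; ring
  have := mul_left_cancel₀ (ne_of_gt hqpos) h4
  simpa [smul_eq_mul] using this

/-- The number of projected points along a primitive `u` is the number of points `x ∈ K` with
`x + u ∉ K`. -/
lemma card_image_eq {K : Finset (Fin n → ℤ)} (hK : ConvLat K) {u : Fin n → ℤ} (hu : Prim u) :
    (K.image (fun x => (∑ i, u i * u i) • x - (∑ i, u i * x i) • u)).card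
      = (K.filter (fun x => x + u ∉ K)).card := by
  classical
  set π : (Fin n → ℤ) → (Fin n → ℤ) :=
    fun x => (∑ i, u i * u i) • x - (∑ i, u i * x i) • u with hπ
  have hπadd : ∀ (x : Fin n → ℤ) (k : ℤ), π (x + k • u) = π x := by
    intro x k
    funext j
    have : ∑ i, u i * (x i + k * u i) = (∑ i, u i * x i) + k * ∑ i, u i * u i := by
      rw [Finset.mul_sum, ← Finset.sum_add_distrib]
      apply Finset.sum_congr rfl
      intros; ring
    simp only [hπ, Pi.sub_apply, Pi.smul_apply, Pi.add_apply, smul_eq_mul]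
    rw [this]
    ring
  have hu0 := prim_ne_zero hu
  -- image equality
  have himg : K.image π = (K.filter (fun x => x + u ∉ K)).image π := by
    apply Finset.Subset.antisymm
    · intro y hy
      obtain ⟨x, hx, rfl⟩ := Finset.mem_image.mp hy
      -- find the last point
      have hex : ∃ j : ℕ, x + ((j + 1 : ℕ) : ℤ) • u ∉ K := by
        by_contra hcon
        push Not at hcon
        have hinj : Function.Injective (fun j : ℕ => x + ((j + 1 : ℕ) : ℤ) • u) := by
          intro a b hab
          simp only at hab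
          have h5 : ((a + 1 : ℕ) : ℤ) • u = ((b + 1 : ℕ) : ℤ) • u := add_left_cancel hab
          obtain ⟨j, hj⟩ := Function.ne_iff.mp hu0
          have hj' : u j ≠ 0 := by simpa using hj
          have h6 := congrFun h5 j
          simp only [Pi.smul_apply, smul_eq_mul] at h6
          have h7 := mul_right_cancel₀ hj' h6
          have h8 : a + 1 = b + 1 := by exact_mod_cast h7
          omega
        have hfin : (Set.range (fun j : ℕ => x + ((j + 1 : ℕ) : ℤ) • u)).Finite := by
          apply (K.finite_toSet).subset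
          rintro _ ⟨j, rfl⟩
          exact hcon j
        exact (Set.infinite_range_of_injective hinj) hfin
      have hmem : ∀ j : ℕ, j < Nat.find hex + 1 → x + (j : ℤ) • u ∈ K := by
        intro j hj
        rcases Nat.eq_zero_or_pos j with rfl | hjp
        · simpa using hx
        · have h9 := Nat.find_min hex (m := j - 1) (by omega)
          rw [not_not] at h9
          have : j - 1 + 1 = j := by omega
          rwa [this] at h9
      apply Finset.mem_image.mpr
      refine ⟨x + ((Nat.find hex : ℕ) : ℤ) • u, ?_, hπadd x _⟩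
      rw [Finset.mem_filter]
      refine ⟨hmem _ (by omega), ?_⟩
      have h10 := Nat.find_spec hex
      intro hbad
      apply h10
      have : x + ((Nat.find hex : ℕ) : ℤ) • u + u = x + ((Nat.find hex + 1 : ℕ) : ℤ) • u := by
        push_cast
        rw [add_smul, one_smul, add_assoc]
      rwa [this] at hbad
    · exact Finset.image_subset_image (Finset.filter_subset _ _)
  rw [himg]
  apply Finset.card_image_of_injOn
  -- injectivity
  have key : ∀ x y : Fin n → ℤ, x ∈ K → y ∈ K → y + u ∉ K → ∀ k : ℤ, x - y = k • u → k ≤ 0 := by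
    intro x y hx hy hyu k hk
    by_contra hkpos
    push Not at hkpos
    apply hyu
    have hkr : (0 : ℝ) < (k : ℝ) := by exact_mod_cast hkpos
    have hk1 : (1 : ℝ) ≤ (k : ℝ) := by exact_mod_cast hkpos
    apply seg_mem hK hy hx (1 / (k : ℝ)) (by positivity) (by rw [div_le_one hkr]; exact hk1)
    intro i
    have h11 := congrFun hk i
    simp only [Pi.sub_apply, Pi.smul_apply, smul_eq_mul] at h11
    have h12 : (x i : ℝ) = y i + k * u i := by
      have : x i = y i + k * u i := by linarith
      rw [this]; push_cast; ring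
    rw [h12]
    simp only [Pi.add_apply]
    push_cast
    field_simp
    ring
  intro x hx y hy hxy
  simp only [Finset.coe_filter, Set.mem_ofPred_eq] at hx hy
  have h13 : (∑ i, u i * u i) • (x - y) = (∑ i, u i * (x - y) i) • u := by
    have h14 : (∑ i, u i * u i) • x - (∑ i, u i * x i) • u
      = (∑ i, u i * u i) • y - (∑ i, u i * y i) • u := hxy
    have h15 : ∑ i, u i * (x - y) i = (∑ i, u i * x i) - ∑ i, u i * y i := by
      rw [← Finset.sum_sub_distrib]
      apply Finset.sum_congr rfl
      intros; simp [mul_sub]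
    rw [h15, smul_sub, sub_smul]
    funext j
    have h16 := congrFun h14 j
    simp only [Pi.sub_apply, Pi.smul_apply, smul_eq_mul] at h16 ⊢
    linarith
  obtain ⟨k, hk⟩ := collinear_of_prim hu _ h13
  have hk1 := key x y hx.1 hy.1 hy.2 k hk
  have hk2 := key y x hy.1 hx.1 hx.2 (-k) (by rw [neg_smul, ← hk]; abel)
  have hk0 : k = 0 := by omega
  rw [hk0, zero_smul] at hk
  exact sub_eq_zero.mp hk

lemma card_filter_odd_iff {K : Finset (Fin n → ℤ)} {c : Fin n → ℤ}
    (hc : ∀ x : Fin n → ℤ, x ∈ K ↔ c - x ∈ K) (u : Fin n → ℤ) :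
    Odd (K.filter (fun x => x + u ∈ K)).card ↔ ∃ x ∈ K, x + x = c - u := by
  classical
  set G := K.filter (fun x => x + u ∈ K) with hG
  have hmapG : ∀ x ∈ G, c - u - x ∈ G := by
    intro x hx
    rw [hG, Finset.mem_filter] at hx ⊢
    constructor
    · have := (hc (x + u)).mp hx.2
      convert this using 1
      abel
    · have := (hc x).mp hx.1
      convert this using 1
      abel
  have heven : ∀ S : Finset (Fin n → ℤ), (∀ x ∈ S, c - u - x ∈ S) → (∀ x ∈ S, c - u - x ≠ x) →
      Even S.card := by
    intro S hS1 hS2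
    have h1 : ∑ x ∈ S, (1 : ZMod 2) = 0 := by
      apply Finset.sum_involution (fun x _ => c - u - x)
      · intro a _
        decide
      · intro a ha _
        exact hS2 a ha
      · intro a ha
        exact hS1 a ha
      · intro a ha
        abel
    rw [Finset.sum_const, nsmul_eq_mul, mul_one] at h1
    exact (ZMod.natCast_eq_zero_iff_even).mp h1
  constructor
  · intro hodd
    by_contra hcon
    push Not at hcon
    have := heven G hmapG (by
      intro x hx hfix
      apply hcon x (Finset.mem_of_mem_filter x hx)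
      have : x + x = (c - u - x) + x := by rw [hfix]
      rw [this]; abel)
    exact (Nat.not_even_iff_odd.mpr hodd) this
  · rintro ⟨x, hx, hxx⟩
    have hxG : x ∈ G := by
      rw [hG, Finset.mem_filter]
      refine ⟨hx, ?_⟩
      have h2 := (hc x).mp hx
      have : x + u = c - x := by
        have : x + u = (x + x) - x + u := by abel
        rw [this, hxx]; abel
      rwa [this]
    have h3 : Even (G.erase x).card := by
      apply heven
      · intro y hy
        rw [Finset.mem_erase] at hy ⊢
        refine ⟨?_, hmapG y hy.2⟩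
        intro hyx
        apply hy.1
        have h4 : y = c - u - x := by rw [← hyx]; abel
        rw [h4, ← hxx]; abel
      · intro y hy hfix
        rw [Finset.mem_erase] at hy
        apply hy.1
        have h5 : y + y = x + x := by
          rw [hxx]
          have : y + y = (c - u - y) + y := by rw [hfix]
          rw [this]; abel
        funext i
        have := congrFun h5 i
        simp only [Pi.add_apply] at this
        omega
    have h6 := Finset.card_erase_add_one hxG
    rw [← h6]
    exact h3.add_one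

lemma card_filter_add {K : Finset (Fin n → ℤ)} (u : Fin n → ℤ) :
    (K.filter (fun x => x + u ∈ K)).card + (K.filter (fun x => x + u ∉ K)).card = K.card := by
  classical
  exact Finset.card_filter_add_card_filter_not (s := K) (fun x => x + u ∈ K)

/-- Equal projection numbers force equal cardinality. -/
lemma card_eq_of_proj (hn : 2 ≤ n) {K L : Finset (Fin n → ℤ)} (hK : ConvLat K) (hL : ConvLat L)
    (hproj : ∀ u : Fin n → ℤ, u ≠ 0 →
        (K.image (fun x => (∑ i, u i * u i) • x - (∑ i, u i * x i) • u)).card =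
        (L.image (fun x => (∑ i, u i * u i) • x - (∑ i, u i * x i) • u)).card) :
    K.card = L.card := by
  classical
  let i0 : Fin n := ⟨0, by omega⟩
  let i1 : Fin n := ⟨1, by omega⟩
  have hne : i1 ≠ i0 := by simp [i0, i1]
  set N : ℤ := ∑ x ∈ K ∪ L, |x i0| + 1 with hN
  have hbd : ∀ x ∈ K ∪ L, |x i0| < N := by
    intro x hx
    have := Finset.single_le_sum (f := fun x : Fin n → ℤ => |x i0|)
      (fun y _ => abs_nonneg (y i0)) hx
    rw [hN]
    linarith
  set u : Fin n → ℤ := fun i => if i = i0 then 2 * N else 1 with hu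
  have hprim : Prim u := by
    intro d hd
    have := hd i1
    simp only [hu, if_neg hne] at this
    exact isUnit_of_dvd_one this
  have hempty : ∀ M : Finset (Fin n → ℤ), M ⊆ K ∪ L → (M.filter (fun x => x + u ∈ M)).card = 0 := by
    intro M hM
    rw [Finset.card_eq_zero, Finset.filter_eq_empty_iff]
    intro x hx hxu
    have h1 := hbd x (hM hx)
    have h2 := hbd _ (hM hxu)
    have h3 : (x + u) i0 = x i0 + 2 * N := by simp [hu]
    rw [h3] at h2
    rw [abs_lt] at h1 h2
    omega
  have h := hproj u (prim_ne_zero hprim)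
  rw [card_image_eq hK hprim, card_image_eq hL hprim] at h
  have h1 := card_filter_add (K := K) u
  have h2 := card_filter_add (K := L) u
  rw [hempty K Finset.subset_union_left] at h1
  rw [hempty L Finset.subset_union_right] at h2
  omega

/-- If the centre `c/2` of `K` is not a lattice point then for `x ∈ K` we have
`2x - c = (2k+1) w` with `w` primitive, and `x - k w` (for which `2(x - kw) - c = w`) is in `K`. -/
lemma prim_decomp {K : Finset (Fin n → ℤ)} (hK : ConvLat K)
    {c : Fin n → ℤ} (hc : ∀ x : Fin n → ℤ, x ∈ K ↔ c - x ∈ K)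
    (hcen : ¬ ∃ e : Fin n → ℤ, c = e + e) {x : Fin n → ℤ} (hx : x ∈ K) :
    ∃ (k : ℤ) (w : Fin n → ℤ), 0 ≤ k ∧ Prim w ∧ (∀ i, x i + x i - c i = (2 * k + 1) * w i) ∧
      x - k • w ∈ K := by
  classical
  set v : Fin n → ℤ := x + x - c with hv
  -- gcd of v
  obtain ⟨m, hm⟩ := (IsPrincipalIdealRing.principal (Ideal.span (Set.range v))).principal
  have hdiv : ∀ i, m ∣ v i := by
    intro i
    have hi : v i ∈ Ideal.span (Set.range v) := Ideal.subset_span ⟨i, rfl⟩
    rw [hm] at hi
    exact Ideal.mem_span_singleton.mp hi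
  have hmv : ∃ b : Fin n → ℤ, ∑ i, b i * v i = m := by
    have h2 : m ∈ Submodule.span ℤ (Set.range v) := by
      have : m ∈ Ideal.span (Set.range v) := by
        rw [hm]; exact Ideal.mem_span_singleton_self m
      exact this
    obtain ⟨b, hb⟩ := (Submodule.mem_span_range_iff_exists_fun ℤ).mp h2
    exact ⟨b, by simpa [smul_eq_mul] using hb⟩
  -- m is odd
  have hodd : ¬ (2 : ℤ) ∣ m := by
    intro h2
    apply hcen
    have h3 : ∀ i, (2 : ℤ) ∣ c i := by
      intro i
      have h4 : (2 : ℤ) ∣ v i := dvd_trans h2 (hdiv i)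
      have h5 : v i = x i + x i - c i := by simp [hv]
      omega
    choose e he using h3
    refine ⟨e, ?_⟩
    funext i
    have := he i
    simp only [Pi.add_apply]
    omega
  choose w hw using hdiv
  have hm0 : m ≠ 0 := by
    rintro rfl
    exact hodd (dvd_zero 2)
  have hwprim : Prim w := by
    intro d hd
    obtain ⟨b, hb⟩ := hmv
    have h6 : m * d ∣ m := by
      conv_rhs => rw [← hb]
      apply Finset.dvd_sum
      intro i _
      rw [hw i]
      apply Dvd.dvd.mul_left
      exact mul_dvd_mul_left m (hd i)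
    have h7 : m * d ∣ m * 1 := by rwa [mul_one]
    exact isUnit_of_dvd_one ((mul_dvd_mul_iff_left hm0).mp h7)
  -- wlog m > 0 : use |m|
  have hcase : ∃ (k : ℤ) (w' : Fin n → ℤ), 0 ≤ k ∧ Prim w' ∧ ∀ i, v i = (2 * k + 1) * w' i := by
    rcases lt_or_gt_of_ne hm0 with hneg | hpos
    · refine ⟨(-m - 1) / 2, -w, by omega, prim_neg hwprim, ?_⟩
      intro i
      have h8 : 2 * ((-m - 1) / 2) + 1 = -m := by omega
      rw [h8, hw i]
      simp
    · refine ⟨(m - 1) / 2, w, by omega, hwprim, ?_⟩
      intro i
      have h8 : 2 * ((m - 1) / 2) + 1 = m := by omega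
      rw [h8, hw i]
  obtain ⟨k, w', hk, hw'prim, hvw⟩ := hcase
  have h9 : ∀ i, v i = x i + x i - c i := by intro i; simp [hv]
  refine ⟨k, w', hk, hw'prim, fun i => by rw [← h9 i]; exact hvw i, ?_⟩
  have hx' : c - x ∈ K := (hc x).mp hx
  have hkr : (0 : ℝ) ≤ (k : ℝ) := by exact_mod_cast hk
  apply seg_mem hK hx hx' ((k : ℝ) / (2 * k + 1)) (by positivity)
    (by rw [div_le_one (by positivity)]; linarith)
  intro i
  have h10 := hvw i
  have h11 : (c i : ℝ) - x i = x i - (2 * k + 1) * w' i := by
    have : c i - x i = x i - (2 * k + 1) * w' i := by linarith [h9 i]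
    exact_mod_cast this
  simp only [Pi.sub_apply, Pi.smul_apply, smul_eq_mul]
  push_cast
  rw [h11]
  have h12 : (2 * (k : ℝ) + 1) ≠ 0 := by positivity
  field_simp
  ring

/-- Every nonempty symmetric convex lattice set whose centre `c/2` is not a lattice point contains
a point `x` with `2x - c` primitive. -/
lemma exists_prim_point {K : Finset (Fin n → ℤ)} (hK : ConvLat K) (hne : K.Nonempty)
    {c : Fin n → ℤ} (hc : ∀ x : Fin n → ℤ, x ∈ K ↔ c - x ∈ K)
    (hcen : ¬ ∃ e : Fin n → ℤ, c = e + e) : ∃ x ∈ K, Prim (x + x - c) := by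
  obtain ⟨x, hx⟩ := hne
  obtain ⟨k, w, -, hw, hxw, hmem⟩ := prim_decomp hK hc hcen hx
  refine ⟨x - k • w, hmem, ?_⟩
  have : x - k • w + (x - k • w) - c = w := by
    funext i
    have h10 := hxw i
    simp only [Pi.sub_apply, Pi.add_apply, Pi.smul_apply, smul_eq_mul]
    linarith
  rw [this]
  exact hw

/-- The level of `x` in the direction `p`, measured from the centre `c/2`. -/
def lev {n : ℕ} (p c x : Fin n → ℤ) : ℤ := ∑ i, p i * (x i + x i - c i)

lemma lev_add (p c x v : Fin n → ℤ) : lev p c (x + v) = lev p c x + 2 * ∑ i, p i * v i := by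
  unfold lev
  rw [Finset.mul_sum, ← Finset.sum_add_distrib]
  apply Finset.sum_congr rfl
  intro i _
  simp only [Pi.add_apply]
  ring

lemma lev_symm (p c x : Fin n → ℤ) : lev p c (c - x) = - lev p c x := by
  unfold lev
  rw [← Finset.sum_neg_distrib]
  apply Finset.sum_congr rfl
  intro i _
  simp only [Pi.sub_apply]
  ring

/-- A jump between two points of `K` across a gap of empty levels is primitive. -/
lemma gap_prim {K : Finset (Fin n → ℤ)} (hK : ConvLat K) {p c a u : Fin n → ℤ}
    (ha : a ∈ K) (hb : a + u ∈ K) (hlt : lev p c a < lev p c (a + u))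
    (hgap : ∀ y ∈ K, lev p c a < lev p c y → lev p c (a + u) ≤ lev p c y) : Prim u := by
  intro d hd
  by_contra hunit
  choose v hv using hd
  -- reduce to positive multiplier
  have hpos : ∃ (e : ℤ) (w : Fin n → ℤ), 0 ≤ e ∧ e ≠ 1 ∧ ∀ i, u i = e * w i := by
    rcases le_or_gt 0 d with h | h
    · refine ⟨d, v, h, ?_, hv⟩
      rintro rfl
      exact hunit isUnit_one
    · refine ⟨-d, -v, by omega, ?_, fun i => by simp [hv i]⟩
      intro h1
      apply hunit
      have : d = -1 := by omega
      rw [this]
      exact isUnit_one.neg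
  obtain ⟨e, w, he0, he1, hw⟩ := hpos
  have hsum : ∑ i, p i * u i = e * ∑ i, p i * w i := by
    rw [Finset.mul_sum]
    apply Finset.sum_congr rfl
    intro i _
    rw [hw i]; ring
  rw [lev_add, hsum] at hlt hgap
  set s := ∑ i, p i * w i with hs
  have hes : 0 < e * s := by linarith
  have he2 : 2 ≤ e := by
    rcases lt_or_ge e 2 with h | h
    · have : e = 0 := by omega
      rw [this] at hes; simp at hes
    · exact h
  have hspos : 0 < s := (pos_iff_pos_of_mul_pos hes).mp (by omega)
  have hy : a + w ∈ K := by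
    have her : (2 : ℝ) ≤ (e : ℝ) := by exact_mod_cast he2
    apply seg_mem hK ha hb (1 / (e : ℝ)) (by positivity)
      (by rw [div_le_one (by linarith)]; linarith)
    intro i
    simp only [Pi.add_apply]
    rw [hw i]
    push_cast
    have : (e : ℝ) ≠ 0 := by linarith
    field_simp
    ring
  have h1 := hgap (a + w) hy (by rw [lev_add]; linarith)
  rw [lev_add] at h1
  nlinarith

/-- If `K` and `L` differ only on the central level (and `K` is not contained in it), then they
have different covariograms at some primitive vector. -/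
lemma central_aux {K L : Finset (Fin n → ℤ)} (hK : ConvLat K) {p c : Fin n → ℤ}
    (hcK : ∀ x : Fin n → ℤ, x ∈ K ↔ c - x ∈ K) (hcL : ∀ x : Fin n → ℤ, x ∈ L ↔ c - x ∈ L)
    (hcov : ∀ u : Fin n → ℤ, Prim u →
      (K.filter (fun x => x + u ∈ K)).card = (L.filter (fun x => x + u ∈ L)).card)
    (hex : ∃ x ∈ K, lev p c x ≠ 0) (hag : ∀ x, lev p c x ≠ 0 → (x ∈ K ↔ x ∈ L))
    (a : Fin n → ℤ) (haK : a ∈ K) (haL : a ∉ L)
    (hmin : ∀ x : Fin n → ℤ, toLex x < toLex a → (x ∈ K ↔ x ∈ L)) : False := by
  classical
  have ha0 : lev p c a = 0 := by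
    by_contra h
    exact haL ((hag a h).mp haK)
  have hTne : (K.filter (fun x => 0 < lev p c x)).Nonempty := by
    obtain ⟨x, hx, hx0⟩ := hex
    rcases lt_or_gt_of_ne hx0 with h | h
    · refine ⟨c - x, ?_⟩
      rw [Finset.mem_filter]
      exact ⟨(hcK x).mp hx, by rw [lev_symm]; omega⟩
    · exact ⟨x, by rw [Finset.mem_filter]; exact ⟨hx, h⟩⟩
  obtain ⟨b0, hb0, hb0min⟩ := Finset.exists_min_image _ (fun x => lev p c x) hTne
  rw [Finset.mem_filter] at hb0
  have hT'ne : (K.filter (fun x => lev p c x = lev p c b0)).Nonempty :=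
    ⟨b0, by rw [Finset.mem_filter]; exact ⟨hb0.1, rfl⟩⟩
  obtain ⟨b, hb, hbmax⟩ := Finset.exists_max_image _ (fun x => toLex x) hT'ne
  rw [Finset.mem_filter] at hb
  set u := b - a with hu
  have hau : a + u = b := by rw [hu]; abel
  have hprim : Prim u := by
    apply gap_prim (p := p) (c := c) hK haK (by rw [hau]; exact hb.1)
    · rw [hau, ha0, hb.2]; exact hb0.2
    · intro y hy hly
      rw [hau, hb.2]
      apply hb0min y
      rw [Finset.mem_filter]
      exact ⟨hy, by rw [ha0] at hly; exact hly⟩
  have hlevu : 2 * ∑ i, p i * u i = lev p c b0 := by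
    have := lev_add p c a u
    rw [hau, ha0, hb.2] at this
    linarith
  have claim1 : ∀ x ∈ L, x + u ∈ L → lev p c x = 0 → x ∈ K ∧ x + u ∈ K := by
    intro x hx hxu hx0
    have h1 : lev p c (x + u) = lev p c b0 := by rw [lev_add, hx0, hlevu]; ring
    have h2 : x + u ∈ K := (hag (x + u) (by rw [h1]; omega)).mpr hxu
    refine ⟨?_, h2⟩
    have h3 := hbmax (x + u) (by rw [Finset.mem_filter]; exact ⟨h2, h1⟩)
    have h4 : toLex x ≤ toLex a := by
      rw [← hau] at h3
      exact (add_le_add_iff_right (toLex u)).mp h3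
    rcases lt_or_eq_of_le h4 with h5 | h5
    · exact (hmin x h5).mpr hx
    · exfalso
      apply haL
      have : x = a := toLex.injective h5
      rwa [← this]
  have hsub : L.filter (fun x => x + u ∈ L) ⊆ K.filter (fun x => x + u ∈ K) := by
    intro x hx
    rw [Finset.mem_filter] at hx ⊢
    obtain ⟨hx, hxu⟩ := hx
    by_cases h0 : lev p c x = 0
    · exact claim1 x hx hxu h0
    · by_cases h1 : lev p c (x + u) = 0
      · have h2 : c - (x + u) ∈ L := (hcL _).mp hxu
        have h3 : c - (x + u) + u ∈ L := by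
          have := (hcL _).mp hx
          convert this using 1
          abel
        obtain ⟨h4, h5⟩ := claim1 _ h2 h3 (by rw [lev_symm, h1]; rfl)
        refine ⟨?_, (hcK _).mpr h4⟩
        apply (hcK _).mpr
        convert h5 using 1
        abel
      · exact ⟨(hag x h0).mpr hx, (hag _ h1).mpr hxu⟩
  have hlt : (L.filter (fun x => x + u ∈ L)).card < (K.filter (fun x => x + u ∈ K)).card := by
    apply Finset.card_lt_card
    refine ⟨hsub, ?_⟩
    intro hcon
    have : a ∈ K.filter (fun x => x + u ∈ K) := by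
      rw [Finset.mem_filter, hau]; exact ⟨haK, hb.1⟩
    exact haL (Finset.mem_of_mem_filter a (hcon this))
  rw [hcov u hprim] at hlt
  exact lt_irrefl _ hlt

/-- If `K` and `L` differ only on the two extreme levels `± H` (and `K` has a point strictly
between), then they have different covariograms at some primitive vector. -/
lemma extreme_aux {K L : Finset (Fin n → ℤ)} (hK : ConvLat K) {p c : Fin n → ℤ}
    (hcK : ∀ x : Fin n → ℤ, x ∈ K ↔ c - x ∈ K) (hcL : ∀ x : Fin n → ℤ, x ∈ L ↔ c - x ∈ L)
    (hcov : ∀ u : Fin n → ℤ, Prim u →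
      (K.filter (fun x => x + u ∈ K)).card = (L.filter (fun x => x + u ∈ L)).card)
    (H : ℤ) (hLH : ∀ x ∈ L, |lev p c x| ≤ H)
    (hex : ∃ x ∈ K, |lev p c x| < H) (hag : ∀ x, |lev p c x| < H → (x ∈ K ↔ x ∈ L))
    (a : Fin n → ℤ) (haK : a ∈ K) (haL : a ∉ L) (haH : lev p c a = H)
    (hmax : ∀ x : Fin n → ℤ, lev p c x = H → toLex a < toLex x → (x ∈ K ↔ x ∈ L)) : False := by
  classical
  obtain ⟨x1, hx1, hx1H⟩ := hex
  rw [abs_lt] at hx1H
  have hTne : (K.filter (fun x => lev p c x < H)).Nonempty :=
    ⟨x1, by rw [Finset.mem_filter]; exact ⟨hx1, hx1H.2⟩⟩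
  obtain ⟨b0, hb0, hb0max⟩ := Finset.exists_max_image _ (fun x => lev p c x) hTne
  rw [Finset.mem_filter] at hb0
  have hb0low : - H < lev p c b0 := by
    have := hb0max x1 (by rw [Finset.mem_filter]; exact ⟨hx1, hx1H.2⟩)
    omega
  have hT'ne : (K.filter (fun x => lev p c x = lev p c b0)).Nonempty :=
    ⟨b0, by rw [Finset.mem_filter]; exact ⟨hb0.1, rfl⟩⟩
  obtain ⟨b, hb, hbmin⟩ := Finset.exists_min_image _ (fun x => toLex x) hT'ne
  rw [Finset.mem_filter] at hb
  set u := a - b with hu
  have hbu : b + u = a := by rw [hu]; abel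
  have hprim : Prim u := by
    apply gap_prim (p := p) (c := c) hK hb.1 (by rw [hbu]; exact haK)
    · rw [hbu, haH, hb.2]; exact hb0.2
    · intro y hy hly
      rw [hbu, haH]
      by_contra hcon
      push Not at hcon
      have := hb0max y (by rw [Finset.mem_filter]; exact ⟨hy, hcon⟩)
      rw [hb.2] at hly
      omega
  have hlevu : lev p c b0 + 2 * ∑ i, p i * u i = H := by
    have := lev_add p c b u
    rw [hbu, haH, hb.2] at this
    linarith
  have claim1 : ∀ x ∈ L, x + u ∈ L → lev p c (x + u) = H → x ∈ K ∧ x + u ∈ K := by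
    intro x hx hxu hxH
    have h1 : lev p c x = lev p c b0 := by
      have := lev_add p c x u
      omega
    have h2 : x ∈ K := (hag x (by rw [h1, abs_lt]; exact ⟨hb0low, hb0.2⟩)).mpr hx
    refine ⟨h2, ?_⟩
    have h3 := hbmin x (by rw [Finset.mem_filter]; exact ⟨h2, h1⟩)
    have h4 : toLex a ≤ toLex (x + u) := by
      rw [← hbu]
      exact (add_le_add_iff_right (toLex u)).mpr h3
    rcases lt_or_eq_of_le h4 with h5 | h5
    · exact (hmax _ hxH h5).mpr hxu
    · exfalso
      apply haL
      have : a = x + u := toLex.injective h5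
      rwa [this]
  have hsub : L.filter (fun x => x + u ∈ L) ⊆ K.filter (fun x => x + u ∈ K) := by
    intro x hx
    rw [Finset.mem_filter] at hx ⊢
    obtain ⟨hx, hxu⟩ := hx
    have hl1 := abs_le.mp (hLH x hx)
    have hl2 := abs_le.mp (hLH _ hxu)
    have hl3 := lev_add p c x u
    by_cases h0 : lev p c (x + u) = H
    · exact claim1 x hx hxu h0
    · by_cases h1 : lev p c x = - H
      · have h2 : c - (x + u) ∈ L := (hcL _).mp hxu
        have h3 : c - (x + u) + u ∈ L := by
          have := (hcL _).mp hx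
          convert this using 1
          abel
        have h30 : c - (x + u) + u = c - x := by abel
        obtain ⟨h4, h5⟩ := claim1 _ h2 h3 (by rw [h30, lev_symm, h1]; ring)
        refine ⟨?_, (hcK _).mpr h4⟩
        apply (hcK _).mpr
        convert h5 using 1
        abel
      · refine ⟨(hag x ?_).mpr hx, (hag _ ?_).mpr hxu⟩
        · rw [abs_lt]; omega
        · rw [abs_lt]; omega
  have hlt : (L.filter (fun x => x + u ∈ L)).card < (K.filter (fun x => x + u ∈ K)).card := by
    apply Finset.card_lt_card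
    refine ⟨hsub, ?_⟩
    intro hcon
    have : b ∈ K.filter (fun x => x + u ∈ K) := by
      rw [Finset.mem_filter, hbu]; exact ⟨hb.1, haK⟩
    have h6 := hcon this
    rw [Finset.mem_filter, hbu] at h6
    exact haL h6.2
  rw [hcov u hprim] at hlt
  exact lt_irrefl _ hlt

/-- Rigidity across a central hyperplane (any centre). -/
lemma central_rigid {K L : Finset (Fin n → ℤ)} (hK : ConvLat K) (hL : ConvLat L)
    {p c : Fin n → ℤ}
    (hcK : ∀ x : Fin n → ℤ, x ∈ K ↔ c - x ∈ K) (hcL : ∀ x : Fin n → ℤ, x ∈ L ↔ c - x ∈ L)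
    (hcov : ∀ u : Fin n → ℤ, Prim u →
      (K.filter (fun x => x + u ∈ K)).card = (L.filter (fun x => x + u ∈ L)).card)
    (hex : ∃ x ∈ K, lev p c x ≠ 0) (hag : ∀ x, lev p c x ≠ 0 → (x ∈ K ↔ x ∈ L)) : K = L := by
  classical
  by_contra hne
  have hΔ : (symmDiff K L).Nonempty := by
    rw [Finset.nonempty_iff_ne_empty]
    intro h
    exact hne (symmDiff_eq_bot.mp h)
  obtain ⟨a, ha, hamin⟩ := Finset.exists_min_image _ (fun x => toLex x) hΔ
  have hmin : ∀ x : Fin n → ℤ, toLex x < toLex a → (x ∈ K ↔ x ∈ L) := by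
    intro x hx
    by_contra hcon
    have : x ∈ symmDiff K L := by
      rw [Finset.mem_symmDiff]; tauto
    exact absurd (hamin x this) (not_le.mpr hx)
  rw [Finset.mem_symmDiff] at ha
  rcases ha with ⟨h1, h2⟩ | ⟨h1, h2⟩
  · exact central_aux hK hcK hcL hcov hex hag a h1 h2 hmin
  · obtain ⟨x, hx, hx0⟩ := hex
    exact central_aux hL hcL hcK (fun u hu => (hcov u hu).symm) ⟨x, (hag x hx0).mp hx, hx0⟩
      (fun x hx => (hag x hx).symm) a h1 h2 (fun x hx => (hmin x hx).symm)

/-- Rigidity on the extreme levels (any centre). -/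
lemma extreme_rigid {K L : Finset (Fin n → ℤ)} (hK : ConvLat K) (hL : ConvLat L)
    {p c : Fin n → ℤ}
    (hcK : ∀ x : Fin n → ℤ, x ∈ K ↔ c - x ∈ K) (hcL : ∀ x : Fin n → ℤ, x ∈ L ↔ c - x ∈ L)
    (hcov : ∀ u : Fin n → ℤ, Prim u →
      (K.filter (fun x => x + u ∈ K)).card = (L.filter (fun x => x + u ∈ L)).card)
    (H : ℤ) (hKH : ∀ x ∈ K, |lev p c x| ≤ H) (hLH : ∀ x ∈ L, |lev p c x| ≤ H)
    (hex : ∃ x ∈ K, |lev p c x| < H) (hag : ∀ x, |lev p c x| < H → (x ∈ K ↔ x ∈ L)) :
    K = L := by
  classical
  by_contra hne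
  have hΔ : ((symmDiff K L).filter (fun x => lev p c x = H)).Nonempty := by
    have h0 : (symmDiff K L).Nonempty := by
      rw [Finset.nonempty_iff_ne_empty]
      intro h
      exact hne (symmDiff_eq_bot.mp h)
    obtain ⟨x, hx⟩ := h0
    have hx' := hx
    rw [Finset.mem_symmDiff] at hx
    have h1 : ¬ |lev p c x| < H := by
      intro h
      have := hag x h
      tauto
    have h2 : |lev p c x| ≤ H := by
      rcases hx with h | h
      · exact hKH x h.1
      · exact hLH x h.1
    have h3 : |lev p c x| = H := le_antisymm h2 (not_lt.mp h1)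
    rcases abs_choice (lev p c x) with h4 | h4
    · refine ⟨x, ?_⟩
      rw [Finset.mem_filter]
      exact ⟨hx', by rw [← h4]; exact h3⟩
    · refine ⟨c - x, ?_⟩
      rw [Finset.mem_filter, Finset.mem_symmDiff, ← hcK x, ← hcL x, lev_symm, ← h4]
      exact ⟨hx, h3⟩
  obtain ⟨a, ha, hamax⟩ := Finset.exists_max_image _ (fun x => toLex x) hΔ
  rw [Finset.mem_filter] at ha
  have hmax : ∀ x : Fin n → ℤ, lev p c x = H → toLex a < toLex x → (x ∈ K ↔ x ∈ L) := by
    intro x hxH hx
    by_contra hcon
    have : x ∈ (symmDiff K L).filter (fun x => lev p c x = H) := by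
      rw [Finset.mem_filter, Finset.mem_symmDiff]
      refine ⟨?_, hxH⟩
      tauto
    exact absurd (hamax x this) (not_le.mpr hx)
  obtain ⟨ha, haH⟩ := ha
  rw [Finset.mem_symmDiff] at ha
  rcases ha with ⟨h1, h2⟩ | ⟨h1, h2⟩
  · exact extreme_aux hK hcK hcL hcov H hLH hex hag a h1 h2 haH hmax
  · obtain ⟨x, hx, hx0⟩ := hex
    exact extreme_aux hL hcL hcK (fun u hu => (hcov u hu).symm) H hKH
      ⟨x, (hag x hx0).mp hx, hx0⟩
      (fun x hx => (hag x hx).symm) a h1 h2 haH (fun x h h' => (hmax x h h').symm)

lemma tri_mem {K : Finset (Fin n → ℤ)} (hK : ConvLat K) {x y z q : Fin n → ℤ}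
    (hx : x ∈ K) (hy : y ∈ K) (hz : z ∈ K) (r s t : ℝ) (hr : 0 ≤ r) (hs : 0 ≤ s) (ht : 0 ≤ t)
    (hsum : r + s + t = 1)
    (hq : ∀ i, (q i : ℝ) = r * x i + s * y i + t * z i) : q ∈ K := by
  apply hK
  have hin : ∀ a ∈ K, (fun i => (a i : ℝ)) ∈ convexHull ℝ
      ((fun y : Fin n → ℤ => fun i => (y i : ℝ)) '' (K : Set (Fin n → ℤ))) :=
    fun a ha => subset_convexHull ℝ _ ⟨a, ha, rfl⟩
  have hc := (convex_convexHull ℝ
      ((fun y : Fin n → ℤ => fun i => (y i : ℝ)) '' (K : Set (Fin n → ℤ)))).sum_mem
      (t := (Finset.univ : Finset (Fin 3))) (w := ![r, s, t])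
      (z := ![(fun i => (x i : ℝ)), (fun i => (y i : ℝ)), (fun i => (z i : ℝ))])
      (by intro i _; fin_cases i <;> simp [hr, hs, ht])
      (by simp [Fin.sum_univ_three, hsum])
      (by intro i _; fin_cases i <;> simp [hin x hx, hin y hy, hin z hz])
  convert hc using 1
  funext i
  simp [Fin.sum_univ_three, hq i]

lemma star {K M : Finset (Fin n → ℤ)} {c : Fin n → ℤ}
    (hcM : ∀ x : Fin n → ℤ, x ∈ M ↔ c - x ∈ M)
    (hcov : ∀ u : Fin n → ℤ, Prim u →
      (K.filter (fun x => x + u ∈ K)).card = (M.filter (fun x => x + u ∈ M)).card)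
    {b y : Fin n → ℤ} (hb : b ∈ M) (hy : y ∈ M) (hp : Prim (b + y - c)) :
    ∃ x ∈ K, x + (b + y - c) ∈ K := by
  classical
  have h1 : c - b ∈ M.filter (fun x => x + (b + y - c) ∈ M) := by
    rw [Finset.mem_filter]
    refine ⟨(hcM b).mp hb, ?_⟩
    have : c - b + (b + y - c) = y := by abel
    rwa [this]
  have h2 : 0 < (M.filter (fun x => x + (b + y - c) ∈ M)).card := Finset.card_pos.mpr ⟨_, h1⟩
  rw [← hcov _ hp] at h2
  obtain ⟨x, hx⟩ := Finset.card_pos.mp h2
  rw [Finset.mem_filter] at hx
  exact ⟨x, hx.1, hx.2⟩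

lemma lev_sum (p c b y : Fin n → ℤ) :
    2 * ∑ i, p i * (b + y - c) i = lev p c b + lev p c y := by
  unfold lev
  rw [Finset.mul_sum, ← Finset.sum_add_distrib]
  apply Finset.sum_congr rfl
  intro i _
  simp only [Pi.add_apply, Pi.sub_apply]
  ring

lemma no_level {M : Finset (Fin n → ℤ)} (hM : ConvLat M) {p ψ c : Fin n → ℤ}
    (hcM : ∀ x : Fin n → ℤ, x ∈ M ↔ c - x ∈ M) {b w : Fin n → ℤ} (hb : b ∈ M) {m r : ℤ}
    (hm : 0 < m) (hbw : ∀ i, b i + b i - c i = m * w i) (hψ : ∑ i, ψ i * w i = 0)
    (hstar : ∀ y ∈ M, lev p c y = r → Prim (b + y - c) → False)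
    (hdiv : ∀ d N' : ℤ, 2 ≤ d → 2 * (d * N') = m * (∑ i, p i * w i) + r →
      ∃ s : ℤ, 0 ≤ s ∧ s * d ≤ m * (d - 1) ∧
        - (m * (∑ i, p i * w i)) + 2 * (s * (∑ i, p i * w i) + N') = r) :
    ∀ y ∈ M, lev p c y = r → lev ψ c y ≤ 0 := by
  classical
  by_contra hcon
  push Not at hcon
  obtain ⟨y0, hy0, hy0r, hy0ψ⟩ := hcon
  have hTne : (M.filter (fun y => lev p c y = r ∧ 0 < lev ψ c y)).Nonempty :=
    ⟨y0, by rw [Finset.mem_filter]; exact ⟨hy0, hy0r, hy0ψ⟩⟩
  obtain ⟨y, hy, hymin⟩ := Finset.exists_min_image _ (fun y => lev ψ c y) hTne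
  rw [Finset.mem_filter] at hy
  obtain ⟨hyM, hyr, hyψ⟩ := hy
  apply hstar y hyM hyr
  have hlevb : ∀ q : Fin n → ℤ, lev q c b = m * ∑ i, q i * w i := by
    intro q
    unfold lev
    rw [Finset.mul_sum]
    apply Finset.sum_congr rfl
    intro i _
    rw [hbw i]; ring
  intro d hd
  by_contra hunit
  choose v hv using hd
  have hpos : ∃ (e : ℤ) (u' : Fin n → ℤ), 0 ≤ e ∧ e ≠ 1 ∧ ∀ i, (b + y - c) i = e * u' i := by
    rcases le_or_gt 0 d with h | h
    · refine ⟨d, v, h, ?_, hv⟩
      rintro rfl
      exact hunit isUnit_one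
    · refine ⟨-d, -v, by omega, ?_, fun i => by simp [hv i]⟩
      intro h1
      apply hunit
      have : d = -1 := by omega
      rw [this]
      exact isUnit_one.neg
  obtain ⟨e, u', he0, he1, hu'⟩ := hpos
  have hsum : ∀ q : Fin n → ℤ, ∑ i, q i * (b + y - c) i = e * ∑ i, q i * u' i := by
    intro q
    rw [Finset.mul_sum]
    apply Finset.sum_congr rfl
    intro i _
    rw [hu' i]; ring
  have hψ1 := lev_sum ψ c b y
  rw [hsum, hlevb, hψ, mul_zero, zero_add] at hψ1
  have hp1 := lev_sum p c b y
  rw [hsum, hlevb, hyr] at hp1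
  have hes : 0 < e * ∑ i, ψ i * u' i := by linarith
  have he2 : 2 ≤ e := by
    rcases lt_or_ge e 2 with h | h
    · have : e = 0 := by omega
      rw [this] at hes; simp at hes
    · exact h
  have hspos : 0 < ∑ i, ψ i * u' i := (pos_iff_pos_of_mul_pos hes).mp (by omega)
  obtain ⟨s, hs0, hsd, hsr⟩ := hdiv e _ he2 hp1
  have hcb : c - b ∈ M := (hcM b).mp hb
  -- the new point
  have hmem : c - b + (s • w + u') ∈ M := by
    have her : (2 : ℝ) ≤ (e : ℝ) := by exact_mod_cast he2
    have he0' : (0 : ℝ) < (e : ℝ) := by linarith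
    have hmr : (0 : ℝ) < (m : ℝ) := by exact_mod_cast hm
    have hsr' : (0 : ℝ) ≤ (s : ℝ) := by exact_mod_cast hs0
    have hsd' : (s : ℝ) * e ≤ m * (e - 1) := by exact_mod_cast hsd
    apply tri_mem hM hb hcb hyM ((s : ℝ) / m) (1 - 1 / e - s / m) (1 / e)
      (by positivity) ?_ (by positivity) (by ring)
    · intro i
      have h1 : (b i : ℝ) + b i - c i = m * w i := by exact_mod_cast hbw i
      have h2 : (b i : ℝ) + y i - c i = e * u' i := by
        have := hu' i
        simp only [Pi.add_apply, Pi.sub_apply] at this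
        exact_mod_cast this
      have h3 : (y i : ℝ) = e * u' i - (b i - c i) := by linarith
      have h4 : (c i : ℝ) = b i + b i - m * w i := by linarith
      simp only [Pi.add_apply, Pi.sub_apply, Pi.smul_apply, smul_eq_mul]
      push_cast
      rw [h3, h4]
      field_simp
      ring
    · have h5 : (s : ℝ) / m ≤ 1 - 1 / e := by
        rw [div_le_iff₀ hmr]
        have h6 : (1 - 1 / (e : ℝ)) * m = (m * (e - 1)) / e := by field_simp
        rw [h6, le_div_iff₀ he0']
        exact hsd'
      linarith
  have hlevnew : ∀ q : Fin n → ℤ, lev q c (c - b + (s • w + u')) =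
      - (m * (∑ i, q i * w i)) + 2 * (s * (∑ i, q i * w i) + ∑ i, q i * u' i) := by
    intro q
    rw [lev_add, lev_symm, hlevb]
    congr 2
    rw [Finset.mul_sum, ← Finset.sum_add_distrib]
    apply Finset.sum_congr rfl
    intro i _
    simp only [Pi.add_apply, Pi.smul_apply, smul_eq_mul]
    ring
  have h7 := hymin (c - b + (s • w + u')) (by
    rw [Finset.mem_filter]
    refine ⟨hmem, ?_, ?_⟩
    · rw [hlevnew]; exact hsr
    · rw [hlevnew, hψ]; linarith)
  rw [hlevnew, hψ] at h7
  nlinarith

/-- A symmetric convex lattice set `M` with the same primitive points and primitive covariogram as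
`K ⊆ {|lev| ≤ 4}` (non-lattice centre, `K` not on a line) also lies in `{|lev| ≤ 4}`. -/
lemma slab_transfer {K M : Finset (Fin n → ℤ)} (hK : ConvLat K) (hM : ConvLat M)
    {p c : Fin n → ℤ}
    (hcK : ∀ x : Fin n → ℤ, x ∈ K ↔ c - x ∈ K) (hcM : ∀ x : Fin n → ℤ, x ∈ M ↔ c - x ∈ M)
    (hcen : ¬ ∃ e : Fin n → ℤ, c = e + e)
    (hcov : ∀ u : Fin n → ℤ, Prim u →
      (K.filter (fun x => x + u ∈ K)).card = (M.filter (fun x => x + u ∈ M)).card)
    (hpts : ∀ x : Fin n → ℤ, Prim (x + x - c) → (x ∈ K ↔ x ∈ M))
    (hline : ∀ w : Fin n → ℤ, ∃ x ∈ K, ∀ k : ℤ, x + x - c ≠ k • w)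
    (hK4 : ∀ x ∈ K, |lev p c x| ≤ 4) : ∀ y ∈ M, lev p c y ≤ 4 := by
  classical
  by_contra hcon
  push Not at hcon
  obtain ⟨b, hb, hb4⟩ := hcon
  obtain ⟨k, w, hk0, hw, hbw, hbk⟩ := prim_decomp hM hcM hcen hb
  set σ := ∑ i, p i * w i with hσ
  have hlevb : ∀ q : Fin n → ℤ, lev q c b = (2 * k + 1) * ∑ i, q i * w i := by
    intro q
    unfold lev
    rw [Finset.mul_sum]
    apply Finset.sum_congr rfl
    intro i _
    rw [hbw i]; ring
  have hbσ : lev p c b = (2 * k + 1) * σ := hlevb p
  have hk1 : 1 ≤ k := by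
    rcases eq_or_lt_of_le hk0 with h | h
    · exfalso
      have h1 : b + b - c = w := by
        funext i
        have := hbw i
        rw [← h] at this
        simp only [Pi.sub_apply, Pi.add_apply]
        linarith
      have h2 : b ∈ K := (hpts b (by rw [h1]; exact hw)).mpr hb
      have h3 := abs_le.mp (hK4 b h2)
      omega
    · omega
  have hσ1 : 1 ≤ σ := by
    by_contra h
    push Not at h
    nlinarith
  -- a point off the line, and a functional
  obtain ⟨x, hx, hxw⟩ := hline w
  obtain ⟨k', w', hk'0, hw', hxw', hxk'⟩ := prim_decomp hK hcK hcen hx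
  have hy0v : x - k' • w' + (x - k' • w') - c = w' := by
    funext i
    have h10 := hxw' i
    simp only [Pi.sub_apply, Pi.add_apply, Pi.smul_apply, smul_eq_mul]
    linarith
  have hy0M : x - k' • w' ∈ M := (hpts _ (by rw [hy0v]; exact hw')).mp hxk'
  have hlevw' : ∀ q : Fin n → ℤ, lev q c (x - k' • w') = ∑ i, q i * w' i := by
    intro q
    unfold lev
    apply Finset.sum_congr rfl
    intro i _
    have := congrFun hy0v i
    simp only [Pi.sub_apply, Pi.add_apply, Pi.smul_apply, smul_eq_mul] at this ⊢
    rw [this]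
  have hex_ij : ∃ i j, w i * w' j ≠ w j * w' i := by
    by_contra hall
    push Not at hall
    have h1 : (∑ i, w i * w i) • w' = (∑ i, w i * w' i) • w := by
      funext j
      simp only [Pi.smul_apply, smul_eq_mul]
      rw [Finset.sum_mul, Finset.sum_mul]
      apply Finset.sum_congr rfl
      intro i _
      have := hall i j
      calc w i * w i * w' j = w i * (w i * w' j) := by ring
        _ = w i * (w j * w' i) := by rw [this]
        _ = w i * w' i * w j := by ring
    obtain ⟨l, hl⟩ := collinear_of_prim hw w' h1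
    apply hxw ((2 * k' + 1) * l)
    funext i
    have h2 := hxw' i
    have h3 := congrFun hl i
    simp only [Pi.smul_apply, smul_eq_mul, Pi.sub_apply, Pi.add_apply] at h3 ⊢
    rw [h2, h3]; ring
  have hψex : ∃ ψ : Fin n → ℤ, ∑ i, ψ i * w i = 0 ∧ 0 < ∑ i, ψ i * w' i := by
    obtain ⟨i, j, hij⟩ := hex_ij
    have hgen : ∀ (a e : ℤ) (v : Fin n → ℤ),
        ∑ l, (Pi.single j a - Pi.single i e : Fin n → ℤ) l * v l = a * v j - e * v i := by
      intro a e v
      simp only [Pi.sub_apply, sub_mul, Finset.sum_sub_distrib]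
      simp [Pi.single_apply]
    rcases lt_or_gt_of_ne hij with h | h
    · refine ⟨Pi.single j (- w i) - Pi.single i (- w j), ?_, ?_⟩
      · rw [hgen]; ring
      · rw [hgen]; linarith
    · refine ⟨Pi.single j (w i) - Pi.single i (w j), ?_, ?_⟩
      · rw [hgen]; ring
      · rw [hgen]; linarith
  obtain ⟨ψ, hψw, hψw'⟩ := hψex
  have hTne : (M.filter (fun y => 0 < lev ψ c y)).Nonempty :=
    ⟨x - k' • w', by rw [Finset.mem_filter, hlevw']; exact ⟨hy0M, hψw'⟩⟩
  obtain ⟨y1, hy1, hy1min⟩ := Finset.exists_min_image _ (fun y => lev ψ c y) hTne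
  rw [Finset.mem_filter] at hy1
  have hbψ : lev ψ c b = 0 := by rw [hlevb, hψw, mul_zero]
  have hcbψ : lev ψ c (c - b) = 0 := by rw [lev_symm, hbψ]; rfl
  have hprim1 : Prim (b + y1 - c) := by
    have h1 : c - b + (b + y1 - c) = y1 := by abel
    apply gap_prim (p := ψ) (c := c) hM ((hcM b).mp hb) (by rw [h1]; exact hy1.1)
    · rw [h1, hcbψ]; exact hy1.2
    · intro y hy hly
      rw [h1]
      apply hy1min y
      rw [Finset.mem_filter]
      exact ⟨hy, by rw [hcbψ] at hly; exact hly⟩
  have hprim2 : Prim (b + (c - y1) - c) := by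
    have h0 : Prim (y1 - b) := by
      have h1 : b + (y1 - b) = y1 := by abel
      apply gap_prim (p := ψ) (c := c) hM hb (by rw [h1]; exact hy1.1)
      · rw [h1, hbψ]; exact hy1.2
      · intro y hy hly
        rw [h1]
        apply hy1min y
        rw [Finset.mem_filter]
        exact ⟨hy, by rw [hbψ] at hly; exact hly⟩
    have h2 : b + (c - y1) - c = -(y1 - b) := by abel
    rw [h2]
    exact prim_neg h0
  have hcy1 : c - y1 ∈ M := (hcM y1).mp hy1.1
  -- level sums
  have hsumle : ∀ y ∈ M, Prim (b + y - c) → ∃ x ∈ K, x + (b + y - c) ∈ K ∧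
      lev p c (x + (b + y - c)) = lev p c x + (lev p c b + lev p c y) := by
    intro y hy hp
    obtain ⟨x, hx, hxu⟩ := star hcM hcov hb hy hp
    exact ⟨x, hx, hxu, by rw [lev_add, lev_sum]⟩
  obtain ⟨xa, hxa, hxa', hxal⟩ := hsumle y1 hy1.1 hprim1
  obtain ⟨xb, hxb, hxb', hxbl⟩ := hsumle (c - y1) hcy1 hprim2
  rw [lev_symm] at hxbl
  have hxa4 := abs_le.mp (hK4 xa hxa)
  have hxa4' := abs_le.mp (hK4 _ hxa')
  have hxb4 := abs_le.mp (hK4 xb hxb)
  have hxb4' := abs_le.mp (hK4 _ hxb')
  have hb8 : (2 * k + 1) * σ ≤ 8 := by omega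
  have hparity : ∀ x : Fin n → ℤ, ∃ q : ℤ, lev p c x = 2 * q - ∑ i, p i * c i := by
    intro x
    refine ⟨∑ i, p i * x i, ?_⟩
    unfold lev
    rw [Finset.mul_sum, ← Finset.sum_sub_distrib]
    apply Finset.sum_congr rfl
    intro i _
    ring
  -- every point of `M` killed by all functionals vanishing on `w` is on the line
  have hcollin : ∀ y ∈ M, (∀ φ : Fin n → ℤ, ∑ i, φ i * w i = 0 → lev φ c y = 0) →
      ∃ l : ℤ, y + y - c = l • w := by
    intro y hy hφ
    apply collinear_of_prim hw
    funext j
    simp only [Pi.smul_apply, smul_eq_mul]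
    rw [Finset.sum_mul, Finset.sum_mul]
    apply Finset.sum_congr rfl
    intro i _
    have hgen : ∀ (a e : ℤ) (v : Fin n → ℤ),
        ∑ l, (Pi.single j a - Pi.single i e : Fin n → ℤ) l * v l = a * v j - e * v i := by
      intro a e v
      simp only [Pi.sub_apply, sub_mul, Finset.sum_sub_distrib]
      simp [Pi.single_apply]
    have h1 := hφ (Pi.single j (w i) - Pi.single i (w j)) (by rw [hgen]; ring)
    have h2 : lev (Pi.single j (w i) - Pi.single i (w j)) c y
        = w i * (y j + y j - c j) - w j * (y i + y i - c i) := by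
      have := hgen (w i) (w j) (fun l => y l + y l - c l)
      unfold lev
      exact this
    rw [h2] at h1
    simp only [Pi.sub_apply, Pi.add_apply]
    have h3 : w i * (y j + y j - c j) = w j * (y i + y i - c i) := by linarith
    calc w i * w i * (y j + y j - c j) = w i * (w i * (y j + y j - c j)) := by ring
      _ = w i * (w j * (y i + y i - c i)) := by rw [h3]
      _ = w i * (y i + y i - c i) * w j := by ring
  have hlevl : ∀ (y : Fin n → ℤ) (l : ℤ), y + y - c = l • w → lev p c y = l * σ := by
    intro y l hl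
    unfold lev
    rw [hσ, Finset.mul_sum]
    apply Finset.sum_congr rfl
    intro i _
    have := congrFun hl i
    simp only [Pi.sub_apply, Pi.add_apply, Pi.smul_apply, smul_eq_mul] at this
    rw [this]; ring
  -- general level exclusion
  have hexcl : ∀ r : ℤ,
      (∀ y ∈ M, lev p c y = r → Prim (b + y - c) → False) →
      (∀ d N' : ℤ, 2 ≤ d → 2 * (d * N') = (2 * k + 1) * σ + r →
        ∃ s : ℤ, 0 ≤ s ∧ s * d ≤ (2 * k + 1) * (d - 1) ∧
          - ((2 * k + 1) * σ) + 2 * (s * σ + N') = r) →
      ∀ y ∈ M, lev p c y = r → ∃ l : ℤ, y + y - c = l • w := by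
    intro r hs hdv y hy hyr
    apply hcollin y hy
    intro φ hφ
    have h1 := no_level (p := p) (ψ := φ) (r := r) hM hcM hb (by omega) hbw hφ hs hdv y hy hyr
    have h2 := no_level (p := p) (ψ := -φ) (r := r) hM hcM hb (by omega) hbw
      (by simpa using hφ) hs hdv y hy hyr
    have h3 : lev (-φ) c y = - lev φ c y := by
      unfold lev
      rw [← Finset.sum_neg_distrib]
      apply Finset.sum_congr rfl
      intro i _
      simp
    rw [h3] at h2
    omega
  obtain ⟨qb, hqb⟩ := hparity b
  obtain ⟨q1, hq1⟩ := hparity y1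
  obtain ⟨qxa, hqxa⟩ := hparity xa
  obtain ⟨qxa', hqxa'⟩ := hparity (xa + (b + y1 - c))
  obtain ⟨qxb, hqxb⟩ := hparity xb
  obtain ⟨qxb', hqxb'⟩ := hparity (xb + (b + (c - y1) - c))
  rcases Int.even_or_odd (∑ i, p i * c i) with hev | hod
  · -- even case: `k = 1`, `σ = 2`
    obtain ⟨r, hr⟩ := hev
    have hσ3 : σ ≤ 2 := by
      by_contra h
      push Not at h
      nlinarith
    have hk4 : k ≤ 3 := by
      by_contra h
      push Not at h
      nlinarith
    have hkσ : k = 1 ∧ σ = 2 := by
      rw [hbσ] at hqb hb4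
      interval_cases k <;> interval_cases σ <;> omega
    obtain ⟨rfl, hσ2⟩ := hkσ
    -- no point of `M` at level 4
    have hno4 : ∀ y ∈ M, lev p c y = 4 → False := by
      intro y hy hy4
      obtain ⟨l, hl⟩ := hexcl 4 (by
          intro z hz hz4 hzp
          obtain ⟨x, hx, hx', hxl⟩ := hsumle z hz hzp
          have h1 := abs_le.mp (hK4 x hx)
          have h2 := abs_le.mp (hK4 _ hx')
          rw [hbσ, hσ2, hz4] at hxl
          omega) (by
          intro d N' hd hdN
          rw [hσ2] at hdN ⊢
          have h5 : d * N' = 5 := by omega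
          have hN : 0 < N' := by
            by_contra h
            push Not at h
            nlinarith
          have hd5 : d ≤ 5 := by nlinarith
          refine ⟨2, by norm_num, ?_, ?_⟩
          · interval_cases d <;> omega
          · interval_cases d <;> omega) y hy hy4
      have h6 := hlevl y l hl
      rw [hy4, hσ2] at h6
      have hl2 : l = 2 := by omega
      apply hcen
      refine ⟨y - w, ?_⟩
      have h7 : y + y - c = w + w := by rw [hl, hl2, two_smul]
      have : c = (y + y) - (y + y - c) := by abel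
      rw [this, h7]; abel
    have hK2 : ∀ x ∈ K, |lev p c x| ≤ 2 := by
      have haux : ∀ x ∈ K, lev p c x ≤ 2 := by
        intro x hx
        by_contra h
        push Not at h
        have h1 := abs_le.mp (hK4 x hx)
        obtain ⟨q, hq⟩ := hparity x
        have h4 : lev p c x = 4 := by omega
        obtain ⟨k2, w2, hk20, hw2, hxw2, hxk2⟩ := prim_decomp hK hcK hcen hx
        have hlx : lev p c x = (2 * k2 + 1) * ∑ i, p i * w2 i := by
          unfold lev
          rw [Finset.mul_sum]
          apply Finset.sum_congr rfl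
          intro i _
          rw [hxw2 i]; ring
        rw [h4] at hlx
        have hspos : 0 < ∑ i, p i * w2 i := by
          by_contra h
          push Not at h
          nlinarith
        have hk2 : k2 ≤ 1 := by nlinarith
        have hk2' : k2 = 0 := by
          interval_cases k2 <;> omega
        apply hno4 x _ h4
        apply (hpts x _).mp hx
        have : x + x - c = w2 := by
          funext i
          have := hxw2 i
          rw [hk2'] at this
          simp only [Pi.sub_apply, Pi.add_apply]
          linarith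
        rw [this]; exact hw2
      intro x hx
      rw [abs_le]
      have h1 := haux x hx
      have h2 := haux _ ((hcK x).mp hx)
      rw [lev_symm] at h2
      omega
    have h1 := abs_le.mp (hK2 xa hxa)
    have h2 := abs_le.mp (hK2 _ hxa')
    have h3 := abs_le.mp (hK2 xb hxb)
    have h4 := abs_le.mp (hK2 _ hxb')
    omega
  · -- odd case: `k = 2`, `σ = 1`
    obtain ⟨r, hr⟩ := hod
    have hb5 : lev p c b = 5 := by omega
    have hσ5 : σ ≤ 1 := by
      by_contra h
      push Not at h
      rw [hbσ] at hb5 hqb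
      have : σ ≤ 2 := by nlinarith
      have : σ = 2 := by omega
      rw [this] at hb5
      omega
    have hσ1' : σ = 1 := by omega
    have hk2 : k = 2 := by
      rw [hbσ, hσ1'] at hb5
      omega
    subst hk2
    have hK3 : ∀ x ∈ K, |lev p c x| ≤ 3 := by
      intro x hx
      have h1 := abs_le.mp (hK4 x hx)
      obtain ⟨q, hq⟩ := hparity x
      rw [abs_le]; omega
    have hline3 : ∀ y ∈ M, lev p c y = 3 → ∃ l : ℤ, y + y - c = l • w := by
      apply hexcl 3
      · intro z hz hz3 hzp
        obtain ⟨x, hx, hx', hxl⟩ := hsumle z hz hzp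
        have h1 := abs_le.mp (hK3 x hx)
        have h2 := abs_le.mp (hK3 _ hx')
        rw [hb5, hz3] at hxl
        omega
      · intro d N' hd hdN
        rw [hσ1'] at hdN ⊢
        have h5 : d * N' = 4 := by omega
        have hN : 0 < N' := by
          by_contra h
          push Not at h
          nlinarith
        have hd5 : d ≤ 4 := by nlinarith
        refine ⟨4 - N', ?_, ?_, ?_⟩
        · interval_cases d <;> omega
        · interval_cases d
          · have : N' = 2 := by omega
            rw [this]; norm_num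
          · omega
          · have : N' = 1 := by omega
            rw [this]; norm_num
        · omega
    -- points of `K` at level 3 are divisible by 3
    have hdiv3 : ∀ x ∈ K, lev p c x = 3 → ∀ i, (3 : ℤ) ∣ x i + x i - c i := by
      intro x hx hx3 i
      obtain ⟨k2, w2, hk20, hw2, hxw2, hxk2⟩ := prim_decomp hK hcK hcen hx
      have hlx : lev p c x = (2 * k2 + 1) * ∑ i, p i * w2 i := by
        unfold lev
        rw [Finset.mul_sum]
        apply Finset.sum_congr rfl
        intro i _
        rw [hxw2 i]; ring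
      rw [hx3] at hlx
      have hspos : 0 < ∑ i, p i * w2 i := by
        by_contra h
        push Not at h
        nlinarith
      have hk2 : k2 ≤ 1 := by nlinarith
      rcases (by omega : k2 = 0 ∨ k2 = 1) with h0 | h1
      · exfalso
        have hxx : x + x - c = w2 := by
          funext i
          have := hxw2 i
          rw [h0] at this
          simp only [Pi.sub_apply, Pi.add_apply]
          linarith
        have hxM : x ∈ M := (hpts x (by rw [hxx]; exact hw2)).mp hx
        obtain ⟨l, hl⟩ := hline3 x hxM hx3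
        have h6 := hlevl x l hl
        rw [hx3, hσ1'] at h6
        have hl3 : l = 3 := by omega
        have h7 := hw2 3 (by
          intro i
          have h8 := congrFun (hxx.symm.trans hl) i
          rw [hl3] at h8
          simp only [Pi.smul_apply, smul_eq_mul] at h8
          exact ⟨w i, h8⟩)
        rw [Int.isUnit_iff] at h7
        omega
      · rw [hxw2 i, h1]
        exact ⟨w2 i, by ring⟩
    -- final contradiction
    have hfin : ∀ y ∈ M, Prim (b + y - c) → lev p c y = 1 → False := by
      intro y hy hyp hy1'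
      obtain ⟨x, hx, hx', hxl⟩ := hsumle y hy hyp
      have h1 := abs_le.mp (hK3 x hx)
      have h2 := abs_le.mp (hK3 _ hx')
      rw [hb5, hy1'] at hxl
      have h3 : lev p c x = -3 := by omega
      have h4 : lev p c (x + (b + y - c)) = 3 := by omega
      have h5 := hdiv3 _ hx' h4
      have h6 := hdiv3 (c - x) ((hcK x).mp hx) (by rw [lev_symm, h3]; norm_num)
      have h7 := hyp 3 (by
        intro i
        have h8 := h5 i
        have h9 := h6 i
        simp only [Pi.add_apply, Pi.sub_apply] at h8 h9 ⊢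
        omega)
      rw [Int.isUnit_iff] at h7
      omega
    rcases (by omega : lev p c y1 = 1 ∨ lev p c y1 = -1) with h | h
    · exact hfin y1 hy1.1 hprim1 h
    · exact hfin (c - y1) hcy1 hprim2 (by rw [lev_symm, h]; norm_num)

lemma full_dim {K : Finset (Fin n → ℤ)} (hne : K.Nonempty)
    (haff : affineSpan ℝ ((fun y : Fin n → ℤ => fun i => (y i : ℝ)) ''
      (K : Set (Fin n → ℤ))) = ⊤) (q c : Fin n → ℤ) (hq : q ≠ 0) : ∃ x ∈ K, lev q c x ≠ 0 := by
  classical
  by_contra hcon
  push Not at hcon
  obtain ⟨v0, hv0⟩ := hne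
  apply hq
  set f : (Fin n → ℝ) →ₗ[ℝ] ℝ := ∑ i, (q i : ℝ) • LinearMap.proj i with hf
  have hfv : ∀ v, f v = ∑ i, (q i : ℝ) * v i := by
    intro v
    simp [hf]
  have hle : affineSpan ℝ ((fun y : Fin n → ℤ => fun i => (y i : ℝ)) '' (K : Set (Fin n → ℤ)))
      ≤ AffineSubspace.mk' (fun i => (v0 i : ℝ)) (LinearMap.ker f) := by
    rw [affineSpan_le]
    rintro _ ⟨x, hx, rfl⟩
    show _ ∈ AffineSubspace.mk' _ _
    rw [AffineSubspace.mem_mk', LinearMap.mem_ker, hfv]
    have h1 := hcon x hx
    have h2 := hcon v0 hv0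
    unfold lev at h1 h2
    have h3 : ∑ i, q i * (x i - v0 i) = 0 := by
      have h4 : 2 * ∑ i, q i * (x i - v0 i) = 0 := by
        have h5 : 2 * ∑ i, q i * (x i - v0 i)
            = (∑ i, q i * (x i + x i - c i)) - ∑ i, q i * (v0 i + v0 i - c i) := by
          rw [Finset.mul_sum, ← Finset.sum_sub_distrib]
          apply Finset.sum_congr rfl
          intro i _
          ring
        rw [h5, h1, h2]; ring
      omega
    have h6 : ((∑ i, q i * (x i - v0 i) : ℤ) : ℝ) = 0 := by rw [h3]; simp
    push_cast at h6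
    simpa using h6
  rw [haff] at hle
  funext j
  have h7 : ((fun i => (v0 i : ℝ)) + Pi.single j (1 : ℝ)) ∈
      AffineSubspace.mk' (fun i => (v0 i : ℝ)) (LinearMap.ker f) :=
    hle (AffineSubspace.mem_top ℝ _ _)
  rw [AffineSubspace.mem_mk', LinearMap.mem_ker, vsub_eq_sub, add_sub_cancel_left, hfv] at h7
  have h8 : ∑ i, (q i : ℝ) * (Pi.single j (1 : ℝ) : Fin n → ℝ) i = q j := by
    simp [Pi.single_apply]
  rw [h8] at h7
  exact_mod_cast h7

lemma not_line (hn : 2 ≤ n) {K : Finset (Fin n → ℤ)} (hne : K.Nonempty)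
    (haff : affineSpan ℝ ((fun y : Fin n → ℤ => fun i => (y i : ℝ)) ''
      (K : Set (Fin n → ℤ))) = ⊤) (c : Fin n → ℤ) :
    ∀ w : Fin n → ℤ, ∃ x ∈ K, ∀ k : ℤ, x + x - c ≠ k • w := by
  classical
  intro w
  let i0 : Fin n := ⟨0, by omega⟩
  let i1 : Fin n := ⟨1, by omega⟩
  have hne01 : i1 ≠ i0 := by simp [i0, i1]
  have hψ : ∃ ψ : Fin n → ℤ, ψ ≠ 0 ∧ ∑ i, ψ i * w i = 0 := by
    by_cases h : w i0 = 0
    · refine ⟨Pi.single i0 1, ?_, ?_⟩
      · intro h0
        have := congrFun h0 i0
        simp at this
      · simp [Pi.single_apply, h]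
    · refine ⟨Pi.single i1 (w i0) - Pi.single i0 (w i1), ?_, ?_⟩
      · intro h0
        have := congrFun h0 i1
        simp [hne01] at this
        exact h this
      · simp only [Pi.sub_apply, sub_mul, Finset.sum_sub_distrib]
        simp [Pi.single_apply]
        ring
  obtain ⟨ψ, hψ0, hψw⟩ := hψ
  obtain ⟨x, hx, hxl⟩ := full_dim hne haff ψ c hψ0
  refine ⟨x, hx, ?_⟩
  intro k hk
  apply hxl
  have : lev ψ c x = k * ∑ i, ψ i * w i := by
    unfold lev
    rw [Finset.mul_sum]
    apply Finset.sum_congr rfl
    intro i _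
    have := congrFun hk i
    simp only [Pi.sub_apply, Pi.add_apply, Pi.smul_apply, smul_eq_mul] at this
    rw [this]; ring
  rw [this, hψw, mul_zero]

lemma mem_translate {L : Finset (Fin n → ℤ)} (t x : Fin n → ℤ) :
    x ∈ L.image (fun y => y - t) ↔ x + t ∈ L := by
  rw [Finset.mem_image]
  constructor
  · rintro ⟨y, hy, rfl⟩
    simpa using hy
  · intro h
    exact ⟨x + t, h, by abel⟩

lemma conv_translate {L : Finset (Fin n → ℤ)} (hL : ConvLat L) (t : Fin n → ℤ) :
    ConvLat (L.image (fun y => y - t)) := by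
  intro x hx
  rw [mem_translate]
  apply hL
  set E : (Fin n → ℤ) → (Fin n → ℝ) := fun y => fun i => (y i : ℝ) with hE
  have hC : Convex ℝ ((fun q : Fin n → ℝ => q + E t) ⁻¹'
      (convexHull ℝ (E '' (L : Set (Fin n → ℤ))))) := by
    intro q hq r hr a b ha hb hab
    have := (convex_convexHull ℝ (E '' (L : Set (Fin n → ℤ)))) hq hr ha hb hab
    simp only [Set.mem_preimage]
    convert this using 1
    have : E t = (a + b) • E t := by rw [hab, one_smul]
    rw [smul_add, smul_add]
    nth_rewrite 1 [this]
    rw [add_smul]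
    abel
  have hsub : E '' ((L.image (fun y => y - t) : Finset (Fin n → ℤ)) : Set (Fin n → ℤ)) ⊆
      (fun q : Fin n → ℝ => q + E t) ⁻¹' (convexHull ℝ (E '' (L : Set (Fin n → ℤ)))) := by
    rintro _ ⟨v, hv, rfl⟩
    have hv' : v + t ∈ L := (mem_translate t v).mp hv
    simp only [Set.mem_preimage]
    apply subset_convexHull ℝ _
    refine ⟨v + t, hv', ?_⟩
    funext i
    simp [hE]
  have h3 := (convexHull_min hsub hC) hx
  simp only [Set.mem_preimage] at h3
  convert h3 using 1
  funext i
  simp [hE]

lemma cov_translate {L : Finset (Fin n → ℤ)} (t u : Fin n → ℤ) :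
    ((L.image (fun y => y - t)).filter (fun x => x + u ∈ L.image (fun y => y - t))).card
      = (L.filter (fun x => x + u ∈ L)).card := by
  classical
  have : (L.image (fun y => y - t)).filter (fun x => x + u ∈ L.image (fun y => y - t))
      = (L.filter (fun x => x + u ∈ L)).image (fun y => y - t) := by
    ext x
    rw [Finset.mem_filter, mem_translate, mem_translate, Finset.mem_image]
    constructor
    · rintro ⟨h1, h2⟩
      refine ⟨x + t, ?_, by abel⟩
      rw [Finset.mem_filter]
      refine ⟨h1, ?_⟩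
      convert h2 using 1
      abel
    · rintro ⟨y, hy, rfl⟩
      rw [Finset.mem_filter] at hy
      refine ⟨by simpa using hy.1, ?_⟩
      convert hy.2 using 1
      abel
  rw [this]
  exact Finset.card_image_of_injective _ (sub_left_injective)

lemma eq_image_of_translate_eq {K L : Finset (Fin n → ℤ)} (t : Fin n → ℤ)
    (h : K = L.image (fun y => y - t)) : L = K.image (fun x => x + t) := by
  classical
  rw [h, Finset.image_image]
  ext x
  rw [Finset.mem_image]
  constructor
  · intro hx
    exact ⟨x, hx, by simp⟩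
  · rintro ⟨y, hy, rfl⟩
    simpa using hy

lemma symm_translate {L : Finset (Fin n → ℤ)} {c d t : Fin n → ℤ} (hdt : d = c + t + t)
    (hd : ∀ x : Fin n → ℤ, x ∈ L ↔ d - x ∈ L) :
    ∀ x : Fin n → ℤ, x ∈ L.image (fun y => y - t) ↔ c - x ∈ L.image (fun y => y - t) := by
  intro x
  rw [mem_translate, mem_translate, hd (x + t)]
  have : d - (x + t) = c - x + t := by rw [hdt]; abel
  rw [this]

/-- **Main result.**  Let `n ≥ 2` and let `K, L ⊂ ℤⁿ` be centrally symmetric convex lattice sets
(`K = c - K`, `L = d - L`), `K` nonempty, whose projections onto every lattice hyperplane have the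
same number of points.  Write `lev p c x = p · (2x - c)`.  Then `|K| = |L|` and:

* (A1) if `K` and a translate `L - t` with the same centre coincide off one hyperplane
  `{p · (2x - c) = 0}` through the centre, and `K` is not contained in it, then `L = K + t`;
* (A2) if they coincide strictly between the hyperplanes `p · (2x - c) = ± H`, `K` has a point
  there, and no point of `K`, `L - t` lies outside this slab, then `L = K + t`;
* (B) if the centre `c/2` of `K` is not a lattice point, there is a lattice vector `t` with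
  `d = c + 2t` such that
  (i) `K` and `L - t` contain the same points `x` with `2x - c` primitive;
  (ii) `L = K + t` if `2v - c` is primitive for each vertex `v` of `conv K`;
  (iii) `L = K + t` if all points of `K` and `L - t` off some hyperplane through the centre are
  primitive relative to the centre, and `K` is not contained in this hyperplane;
  (iv) `L = K + t` if `K` is `n`-dimensional and `|p · (2x - c)| ≤ 4` for all `x ∈ K`, for some
  nonzero integer vector `p` (so `K` is covered by five consecutive parallel lattice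
  hyperplanes); nothing else is assumed about `L`. -/
theorem result (n : ℕ) (hn : 2 ≤ n) (K L : Finset (Fin n → ℤ)) (hne : K.Nonempty)
    (hK : ConvLat K) (hL : ConvLat L) (c d : Fin n → ℤ)
    (hc : ∀ x : Fin n → ℤ, x ∈ K ↔ c - x ∈ K)
    (hd : ∀ x : Fin n → ℤ, x ∈ L ↔ d - x ∈ L)
    (hproj : ∀ u : Fin n → ℤ, u ≠ 0 →
        (K.image (fun x => (∑ i, u i * u i) • x - (∑ i, u i * x i) • u)).card =
        (L.image (fun x => (∑ i, u i * u i) • x - (∑ i, u i * x i) • u)).card) :
    K.card = L.card ∧
    (∀ t p : Fin n → ℤ, d = c + t + t → (∃ x ∈ K, lev p c x ≠ 0) →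
      (∀ x, lev p c x ≠ 0 → (x ∈ K ↔ x + t ∈ L)) → L = K.image (fun x => x + t)) ∧
    (∀ (t p : Fin n → ℤ) (H : ℤ), d = c + t + t → (∀ x ∈ K, |lev p c x| ≤ H) →
      (∀ y ∈ L, |lev p d y| ≤ H) → (∃ x ∈ K, |lev p c x| < H) →
      (∀ x, |lev p c x| < H → (x ∈ K ↔ x + t ∈ L)) → L = K.image (fun x => x + t)) ∧
    ((¬ ∃ e : Fin n → ℤ, c = e + e) →
      ∃ t : Fin n → ℤ,
        d = c + t + t ∧
        (∀ x : Fin n → ℤ, Prim (x + x - c) → (x ∈ K ↔ x + t ∈ L)) ∧
        ((∀ v ∈ K, (fun i => (v i : ℝ)) ∈ Set.extremePoints ℝ (convexHull ℝ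
              ((fun y : Fin n → ℤ => fun i => (y i : ℝ)) '' (K : Set (Fin n → ℤ)))) →
            Prim (v + v - c)) →
          L = K.image (fun x => x + t)) ∧
        (∀ p : Fin n → ℤ, (∃ x ∈ K, lev p c x ≠ 0) →
          (∀ x ∈ K, lev p c x ≠ 0 → Prim (x + x - c)) →
          (∀ y ∈ L, lev p d y ≠ 0 → Prim (y + y - d)) →
          L = K.image (fun x => x + t)) ∧
        (affineSpan ℝ ((fun y : Fin n → ℤ => fun i => (y i : ℝ)) ''
              (K : Set (Fin n → ℤ))) = ⊤ →
          ∀ p : Fin n → ℤ, p ≠ 0 → (∀ x ∈ K, |lev p c x| ≤ 4) →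
          L = K.image (fun x => x + t))) := by
  classical
  have hcard := card_eq_of_proj hn hK hL hproj
  -- equality of the discrete covariograms on primitive vectors
  have hcov : ∀ u : Fin n → ℤ, Prim u →
      (K.filter (fun x => x + u ∈ K)).card = (L.filter (fun x => x + u ∈ L)).card := by
    intro u hu
    have h := hproj u (prim_ne_zero hu)
    rw [card_image_eq hK hu, card_image_eq hL hu] at h
    have h1 := card_filter_add (K := K) u
    have h2 := card_filter_add (K := L) u
    omega
  have hlevt : ∀ t p x : Fin n → ℤ, d = c + t + t → lev p d (x + t) = lev p c x := by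
    intro t p x hdt
    unfold lev
    apply Finset.sum_congr rfl
    intro i _
    rw [hdt]
    simp only [Pi.add_apply]
    ring
  have hA1 : ∀ t p : Fin n → ℤ, d = c + t + t → (∃ x ∈ K, lev p c x ≠ 0) →
      (∀ x, lev p c x ≠ 0 → (x ∈ K ↔ x + t ∈ L)) → L = K.image (fun x => x + t) := by
    intro t p hdt hex hag
    apply eq_image_of_translate_eq
    apply central_rigid (p := p) (c := c) hK (conv_translate hL t) hc (symm_translate hdt hd)
    · intro u hu
      rw [cov_translate]
      exact hcov u hu
    · exact hex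
    · intro x hx
      rw [mem_translate]
      exact hag x hx
  have hA2 : ∀ (t p : Fin n → ℤ) (H : ℤ), d = c + t + t → (∀ x ∈ K, |lev p c x| ≤ H) →
      (∀ y ∈ L, |lev p d y| ≤ H) → (∃ x ∈ K, |lev p c x| < H) →
      (∀ x, |lev p c x| < H → (x ∈ K ↔ x + t ∈ L)) → L = K.image (fun x => x + t) := by
    intro t p H hdt hKH hLH hex hag
    apply eq_image_of_translate_eq
    apply extreme_rigid (p := p) (c := c) hK (conv_translate hL t) hc (symm_translate hdt hd)
      (H := H)
    · intro u hu
      rw [cov_translate]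
      exact hcov u hu
    · exact hKH
    · intro x hx
      rw [mem_translate] at hx
      rw [← hlevt t p x hdt]
      exact hLH _ hx
    · exact hex
    · intro x hx
      rw [mem_translate]
      exact hag x hx
  refine ⟨hcard, hA1, hA2, ?_⟩
  intro hcen
  have hpar : ∀ u : Fin n → ℤ, Prim u →
      ((∃ x ∈ K, x + x = c - u) ↔ ∃ y ∈ L, y + y = d - u) := by
    intro u hu
    rw [← card_filter_odd_iff hc u, ← card_filter_odd_iff hd u, hcov u hu]
  obtain ⟨x0, hx0, hx0p⟩ := exists_prim_point hK hne hc hcen
  obtain ⟨y0, hy0, hy0e⟩ := (hpar (-(x0 + x0 - c)) (prim_neg hx0p)).mp ⟨x0, hx0, by abel⟩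
  have hdt : d = c + (y0 - x0) + (y0 - x0) := by
    have h1 : d = (y0 + y0) - (x0 + x0 - c) := by rw [hy0e]; abel
    rw [h1]; abel
  have hpts : ∀ x : Fin n → ℤ, Prim (x + x - c) → (x ∈ K ↔ x + (y0 - x0) ∈ L) := by
    intro x hx
    have h := hpar (-(x + x - c)) (prim_neg hx)
    have hdbl : ∀ a b : Fin n → ℤ, a + a = b + b → a = b := by
      intro a b hab
      funext i
      have := congrFun hab i
      simp only [Pi.add_apply] at this
      omega
    constructor
    · intro hxK
      obtain ⟨y, hy, hye⟩ := h.mp ⟨x, hxK, by abel⟩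
      have : y = x + (y0 - x0) := by
        apply hdbl
        rw [hye, hdt]; abel
      rwa [← this]
    · intro hxL
      obtain ⟨y, hy, hye⟩ := h.mpr ⟨x + (y0 - x0), hxL, by rw [hdt]; abel⟩
      have : y = x := by
        apply hdbl
        rw [hye]; abel
      rwa [← this]
  set t := y0 - x0 with ht
  have hcenL : ¬ ∃ e : Fin n → ℤ, d = e + e := by
    rintro ⟨e, he⟩
    apply hcen
    refine ⟨e - t, ?_⟩
    have : c = d - t - t := by rw [hdt]; abel
    rw [this, he]; abel
  have hvec : ∀ x : Fin n → ℤ, (x + t) + (x + t) - d = x + x - c := by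
    intro x
    rw [hdt]; abel
  refine ⟨t, hdt, hpts, ?_, ?_, ?_⟩
  · -- vertices
    intro hext
    -- embedding
    set E : (Fin n → ℤ) → (Fin n → ℝ) := fun y => fun i => (y i : ℝ) with hE
    have hfin : (E '' (K : Set (Fin n → ℤ))).Finite := (K.finite_toSet).image E
    have hKM : closure (convexHull ℝ (Set.extremePoints ℝ
        (convexHull ℝ (E '' (K : Set (Fin n → ℤ))))))
        = convexHull ℝ (E '' (K : Set (Fin n → ℤ))) :=
      closure_convexHull_extremePoints (hfin.isCompact_convexHull (𝕜 := ℝ))
        (convex_convexHull ℝ _)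
    have hextsub : Set.extremePoints ℝ (convexHull ℝ (E '' (K : Set (Fin n → ℤ))))
        ⊆ E '' (K : Set (Fin n → ℤ)) := extremePoints_convexHull_subset
    have hextfin : (Set.extremePoints ℝ (convexHull ℝ (E '' (K : Set (Fin n → ℤ))))).Finite :=
      hfin.subset hextsub
    have hKM' : convexHull ℝ (Set.extremePoints ℝ (convexHull ℝ (E '' (K : Set (Fin n → ℤ)))))
        = convexHull ℝ (E '' (K : Set (Fin n → ℤ))) :=
      ((hextfin.isClosed_convexHull (𝕜 := ℝ)).closure_eq).symm.trans hKM
    have hsub : K.image (fun x => x + t) ⊆ L := by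
      intro z hz
      obtain ⟨x, hx, rfl⟩ := Finset.mem_image.mp hz
      apply hL
      -- E x ∈ conv ext
      have hEx : E x ∈ convexHull ℝ
          (Set.extremePoints ℝ (convexHull ℝ (E '' (K : Set (Fin n → ℤ))))) := by
        rw [hKM']
        exact subset_convexHull ℝ _ ⟨x, hx, rfl⟩
      have hC : Convex ℝ ((fun p : Fin n → ℝ => p + E t) ⁻¹'
          (convexHull ℝ (E '' (L : Set (Fin n → ℤ))))) := by
        intro p hp q hq a b ha hb hab
        have := (convex_convexHull ℝ (E '' (L : Set (Fin n → ℤ)))) hp hq ha hb hab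
        simp only [Set.mem_preimage]
        convert this using 1
        have : E t = (a + b) • E t := by rw [hab, one_smul]
        rw [smul_add, smul_add]
        nth_rewrite 1 [this]
        rw [add_smul]
        abel
      have hsub2 : Set.extremePoints ℝ (convexHull ℝ (E '' (K : Set (Fin n → ℤ)))) ⊆
          (fun p : Fin n → ℝ => p + E t) ⁻¹' (convexHull ℝ (E '' (L : Set (Fin n → ℤ)))) := by
        intro p hp
        obtain ⟨v, hv, rfl⟩ := hextsub hp
        have hv' : v ∈ K := hv
        have hprim := hext v hv' hp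
        have hvt := (hpts v hprim).mp hv'
        simp only [Set.mem_preimage]
        apply subset_convexHull ℝ _
        refine ⟨v + t, hvt, ?_⟩
        funext i
        simp [hE]
      have h3 := (convexHull_min hsub2 hC) hEx
      simp only [Set.mem_preimage] at h3
      convert h3 using 1
      funext i
      simp [hE]
    symm
    apply Finset.eq_of_subset_of_card_le hsub
    rw [Finset.card_image_of_injective _ (add_left_injective t), hcard]
  · -- non-primitive points in a hyperplane
    intro p hex hKp hLp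
    apply hA1 t p hdt hex
    intro x hx
    constructor
    · intro hxK
      exact (hpts x (hKp x hxK hx)).mp hxK
    · intro hxL
      have h1 := hLp _ hxL (by rw [hlevt t p x hdt]; exact hx)
      rw [hvec] at h1
      exact (hpts x h1).mpr hxL
  · -- width at most four
    intro haff p hp0 hK4
    have hex := full_dim hne haff p c hp0
    have hline := not_line hn hne haff c
    have hT : ∀ y ∈ L.image (fun y => y - t), lev p c y ≤ 4 := by
      apply slab_transfer hK (conv_translate hL t) hc (symm_translate hdt hd) hcen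
      · intro u hu
        rw [cov_translate]
        exact hcov u hu
      · intro x hx
        rw [mem_translate]
        exact hpts x hx
      · exact hline
      · exact hK4
    have hL4 : ∀ y ∈ L, |lev p d y| ≤ 4 := by
      intro y hy
      have h2 : y - t + t = y := by abel
      have h3 : y - t ∈ L.image (fun y => y - t) := by
        rw [mem_translate, h2]; exact hy
      have h4 := hT _ h3
      have h5 := hT _ ((symm_translate hdt hd (y - t)).mp h3)
      rw [lev_symm] at h5
      have h1 := hlevt t p (y - t) hdt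
      rw [h2] at h1
      rw [h1, abs_le]
      omega
    -- decomposition of levels
    have hdec : ∀ (M : Finset (Fin n → ℤ)) (e : Fin n → ℤ), ConvLat M →
        (∀ x : Fin n → ℤ, x ∈ M ↔ e - x ∈ M) → (¬ ∃ f : Fin n → ℤ, e = f + f) →
        ∀ x ∈ M, Prim (x + x - e) ∨
          ∃ (k : ℤ) (w : Fin n → ℤ), 1 ≤ k ∧
            lev p e x = (2 * k + 1) * (∑ i, p i * w i) ∧ x - k • w ∈ M ∧
            lev p e (x - k • w) = ∑ i, p i * w i := by
      intro M e hM he hecen x hx
      obtain ⟨k, w, hk0, hw, hxw, hmem⟩ := prim_decomp hM he hecen hx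
      have hlx : lev p e x = (2 * k + 1) * (∑ i, p i * w i) := by
        unfold lev
        rw [Finset.mul_sum]
        apply Finset.sum_congr rfl
        intro i _
        rw [hxw i]; ring
      have hlx' : lev p e (x - k • w) = ∑ i, p i * w i := by
        unfold lev
        apply Finset.sum_congr rfl
        intro i _
        have := hxw i
        simp only [Pi.sub_apply, Pi.smul_apply, smul_eq_mul]
        have h5 : x i - k * w i + (x i - k * w i) - e i = w i := by linarith
        rw [h5]
      rcases eq_or_lt_of_le hk0 with hk | hk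
      · left
        have : x + x - e = w := by
          funext i
          have := hxw i
          rw [← hk] at this
          simp only [Pi.sub_apply, Pi.add_apply]
          linarith
        rw [this]; exact hw
      · right
        exact ⟨k, w, by omega, hlx, hmem, hlx'⟩
    -- a non-primitive point has level 0 or ± 3
    have hlev3 : ∀ (k s : ℤ), 1 ≤ k → |(2 * k + 1) * s| ≤ 4 →
        s = 0 ∨ (k = 1 ∧ (s = 1 ∨ s = -1)) := by
      intro k s hk h
      rw [abs_mul, abs_of_pos (by omega : (0 : ℤ) < 2 * k + 1)] at h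
      rcases eq_or_ne s 0 with h0 | h0
      · left; exact h0
      · right
        have h1 : 1 ≤ |s| := Int.one_le_abs h0
        have h2 : |s| ≤ 1 := by nlinarith
        have h3 : |s| = 1 := le_antisymm h2 h1
        rw [h3] at h
        refine ⟨by omega, ?_⟩
        rcases abs_choice s with h4 | h4
        · left; omega
        · right; omega
    -- parity of levels
    have hparity : ∀ x : Fin n → ℤ, ∃ q : ℤ, lev p c x = 2 * q - ∑ i, p i * c i := by
      intro x
      refine ⟨∑ i, p i * x i, ?_⟩
      unfold lev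
      rw [Finset.mul_sum, ← Finset.sum_sub_distrib]
      apply Finset.sum_congr rfl
      intro i _
      ring
    rcases Int.even_or_odd (∑ i, p i * c i) with hev | hod
    · -- even: all points off the central level are primitive
      obtain ⟨r, hr⟩ := hev
      apply hA1 t p hdt hex
      intro x hx
      obtain ⟨q, hq⟩ := hparity x
      constructor
      · intro hxK
        rcases hdec K c hK hc hcen x hxK with hprim | ⟨k, w, hk, hl, -, -⟩
        · exact (hpts x hprim).mp hxK
        · exfalso
          have h4 := hK4 x hxK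
          rw [hl] at h4
          rcases hlev3 k _ hk h4 with h | ⟨h1, h | h⟩
          · apply hx; rw [hl, h, mul_zero]
          · rw [hl, h, h1] at hq; omega
          · rw [hl, h, h1] at hq; omega
      · intro hxL
        have hlx := hlevt t p x hdt
        rcases hdec L d hL hd hcenL (x + t) hxL with hprim | ⟨k, w, hk, hl, -, -⟩
        · rw [hvec] at hprim
          exact (hpts x hprim).mpr hxL
        · exfalso
          have h4 := hL4 _ hxL
          rw [hl] at h4
          rw [hlx] at hl
          rcases hlev3 k _ hk h4 with h | ⟨h1, h | h⟩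
          · apply hx; rw [hl, h, mul_zero]
          · rw [hl, h, h1] at hq; omega
          · rw [hl, h, h1] at hq; omega
    · -- odd: levels ± 1, ± 3
      obtain ⟨r, hr⟩ := hod
      by_contra hneq
      -- membership agrees at primitive points; find a non-primitive point in the difference
      have hagree : ∀ x, |lev p c x| < 3 → (x ∈ K ↔ x + t ∈ L) := by
        intro x hx
        obtain ⟨q, hq⟩ := hparity x
        have hx' := abs_lt.mp hx
        constructor
        · intro hxK
          rcases hdec K c hK hc hcen x hxK with hprim | ⟨k, w, hk, hl, -, -⟩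
          · exact (hpts x hprim).mp hxK
          · exfalso
            have h4 := hK4 x hxK
            rw [hl] at h4
            rcases hlev3 k _ hk h4 with h | ⟨h1, h | h⟩
            · rw [hl, h, mul_zero] at hq; omega
            · rw [hl, h, h1] at hx'; omega
            · rw [hl, h, h1] at hx'; omega
        · intro hxL
          have hlx := hlevt t p x hdt
          rcases hdec L d hL hd hcenL (x + t) hxL with hprim | ⟨k, w, hk, hl, -, -⟩
          · rw [hvec] at hprim
            exact (hpts x hprim).mpr hxL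
          · exfalso
            have h4 := hL4 _ hxL
            rw [hl] at h4
            rw [hlx] at hl
            rcases hlev3 k _ hk h4 with h | ⟨h1, h | h⟩
            · rw [hl, h, mul_zero] at hq; omega
            · rw [hl, h, h1] at hx'; omega
            · rw [hl, h, h1] at hx'; omega
      have hK3 : ∀ x ∈ K, |lev p c x| ≤ 3 := by
        intro x hx
        obtain ⟨q, hq⟩ := hparity x
        have := abs_le.mp (hK4 x hx)
        rw [abs_le]; omega
      have hL3 : ∀ y ∈ L, |lev p d y| ≤ 3 := by
        intro y hy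
        have h1 := hlevt t p (y - t) hdt
        have h2 : y - t + t = y := by abel
        rw [h2] at h1
        obtain ⟨q, hq⟩ := hparity (y - t)
        have := abs_le.mp (hL4 y hy)
        rw [abs_le]; omega
      by_cases hex1 : ∃ x ∈ K, |lev p c x| < 3
      · exact hneq (hA2 t p 3 hdt hK3 hL3 hex1 hagree)
      · -- no point at levels ± 1: then all points are primitive and K = L - t
        push Not at hex1
        have hKprim : ∀ x ∈ K, Prim (x + x - c) := by
          intro x hx
          rcases hdec K c hK hc hcen x hx with hprim | ⟨k, w, hk, hl, hmem, hl'⟩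
          · exact hprim
          · exfalso
            have h4 := hK4 x hx
            rw [hl] at h4
            have h5 := hex1 _ hmem
            rw [hl'] at h5
            rcases hlev3 k _ hk h4 with h | ⟨h1, h | h⟩
            · rw [h] at h5; norm_num at h5
            · rw [h] at h5; norm_num at h5
            · rw [h] at h5; norm_num at h5
        apply hneq
        symm
        apply Finset.eq_of_subset_of_card_le
        · intro z hz
          obtain ⟨x, hx, rfl⟩ := Finset.mem_image.mp hz
          exact (hpts x (hKprim x hx)).mp hx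
        · rw [Finset.card_image_of_injective _ (add_left_injective t), hcard]

end Pool.Agent.Results.MP_8cf263_co.NonLatticeCentre
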